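import Pool.Agent.H92.ND.TargetsB
import Pool.Agent.H78.SM.RSB

/-!
# MP_70ba79_ag: the form `∇G · y` is prime (board `ndc_modules`, row FPR)
-/

set_option autoImplicit false

namespace Pool.Agent.H48.ND

open MvPolynomial SC Pool.Agent.H27.LV Pool.Agent.H84.SM Pool.Agent.H84.ND Pool.Agent.H92.ND
open Pool.Agent.H78.SM (e6 e6_f)

theorem pf_FPR (hGRP : Pool.Agent.H92.ND.T_GRP) : Pool.Agent.H92.ND.T_FPR := by
  intro k _ _ G d hd hG hsq
  have hgrp := hGRP k G d hd hG hsq
  have hex : ∃ l, pderiv l G ≠ 0 := by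
    by_contra h
    push Not at h
    obtain ⟨l, hl⟩ := hgrp (X 0) (MvPolynomial.X_prime (i := (0 : Fin 3))).irreducible
    exact hl (by rw [h l]; exact dvd_zero _)
  have hunit : ∀ r : MvPolynomial (Fin 3) k, (∀ i, r ∣ pderiv i G) → IsUnit r := by
    intro r hr
    by_contra hu
    have hr0 : r ≠ 0 := by
      rintro rfl
      obtain ⟨l, hl⟩ := hex
      exact hl (zero_dvd_iff.1 (hr l))
    obtain ⟨P, hP, hPr⟩ := WfDvdMonoid.exists_irreducible_factor hu hr0
    obtain ⟨l, hl⟩ := hgrp P hP
    exact hl (hPr.trans (hr l))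
  constructor
  · have h : Irreducible (e6 (fA G)) := by
      rw [e6_f]
      apply irreducible_sumSMulX
      · obtain ⟨l, hl⟩ := hex
        refine ⟨l, ?_⟩
        rw [Finsupp.mem_support_iff, Finsupp.equivFunOnFinite_symm_apply_apply]
        exact hl
      · intro r hr
        apply hunit
        intro i
        have h1 := hr i
        rwa [Finsupp.equivFunOnFinite_symm_apply_apply] at h1
    have h2 : Irreducible (fA G) := (MulEquiv.irreducible_iff (e6 (k := k))).mp h
    exact h2.prime
  · rintro ⟨h, hh⟩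
    have h1 := congrArg (aeval (Sum.elim (xa (k := k)) 0) : A2 k → A2 k) hh
    rw [map_mul] at h1
    have e1 : aeval (Sum.elim (xa (k := k)) 0) (fA G) = 0 := by
      simp [fA, dp, ya]
    have e2 : aeval (Sum.elim (xa (k := k)) 0) (gA G) = gA G := by
      unfold gA
      rw [MvPolynomial.comp_aeval_apply]
      refine congrArg (fun f : Fin 3 → A2 k => aeval f G) (funext fun i => ?_)
      simp [xa]
    rw [e1, zero_mul, e2] at h1
    have hg : G = 0 := by
      have h2 := congrArg (aeval (Sum.elim (X : Fin 3 → MvPolynomial (Fin 3) k) 0) :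
        A2 k → MvPolynomial (Fin 3) k) h1
      have e3 : aeval (Sum.elim (X : Fin 3 → MvPolynomial (Fin 3) k) 0) (gA G) = G := by
        unfold gA
        rw [MvPolynomial.comp_aeval_apply]
        have e4 : (fun i => aeval (Sum.elim (X : Fin 3 → MvPolynomial (Fin 3) k) 0)
            (xa (k := k) i)) = X := funext fun i => by simp [xa]
        rw [e4, aeval_X_left_apply]
      rw [e3, map_zero] at h2
      exact h2
    obtain ⟨l, hl⟩ := hex
    exact hl (by rw [hg, map_zero])

end Pool.Agent.H48.ND
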