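import Pool.Agent.H84.ND.Targets2
import Pool.Agent.H92.SM.LCA

/-!
# MP_70ba79_ag: contact at a given smooth point of the curve (board `ndc_modules`, row LAP)
-/

set_option autoImplicit false

namespace Pool.Agent.H48.ND

open MvPolynomial SC Pool.Agent.H84.SM Pool.Agent.H84.ND
open Pool.Agent.H92.OD
open Pool.Agent.H92.SM
open Pool.Agent.H27.LV (ge poleOrder)

/-- a frame with `u0 = s` at a smooth point -/
theorem frame {k : Type} [Field k] [CharZero k] {G : MvPolynomial (Fin 3) k} {d : ℕ}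
    (hG : G.IsHomogeneous d) {s : Fin 3 → k} (hs : s ≠ 0) (hGs : eval s G = 0)
    (hns : ¬ Sing G s) :
    ∃ u1 u2 : Fin 3 → k, dt s u1 u2 ≠ 0 ∧ dp (gr G s) u2 ≠ 0 := by
  obtain ⟨i, hi⟩ : ∃ i, eval s (pderiv i G) ≠ 0 := by
    by_contra h
    push Not at h
    exact hns ⟨hs, h⟩
  have heul : ∑ j, s j * eval s (pderiv j G) = 0 := by
    have h1 := congrArg (eval s) hG.sum_X_mul_pderiv
    rw [map_nsmul, hGs, smul_zero, map_sum] at h1
    rw [← h1]
    exact Finset.sum_congr rfl fun j _ => by rw [map_mul, eval_X]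
  have hj : s (i + 1) ≠ 0 ∨ s (i + 2) ≠ 0 := by
    by_contra h
    push Not at h
    obtain ⟨h1, h2⟩ := h
    have h3 : s i * eval s (pderiv i G) = 0 := by
      rw [Fin.sum_univ_three] at heul
      fin_cases i
      · have e1 : s 1 = 0 := h1
        have e2 : s 2 = 0 := h2
        rw [e1, e2] at heul
        simpa using heul
      · have e1 : s 2 = 0 := h1
        have e2 : s 0 = 0 := h2
        rw [e1, e2] at heul
        simpa using heul
      · have e1 : s 0 = 0 := h1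
        have e2 : s 1 = 0 := h2
        rw [e1, e2] at heul
        simpa using heul
    have h4 := (mul_eq_zero.1 h3).resolve_right hi
    refine hs (funext fun j => ?_)
    fin_cases i <;> fin_cases j
    · exact h4
    · exact h1
    · exact h2
    · exact h2
    · exact h4
    · exact h1
    · exact h1
    · exact h2
    · exact h4
  have hg : dp (gr G s) (Pi.single i 1) ≠ 0 := by
    rw [← gr_eval] at hi
    have e : dp (gr G s) (Pi.single i 1) = gr G s i := by
      unfold dp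
      rw [Finset.sum_eq_single i]
      · rw [Pi.single_eq_same, mul_one]
      · intro j _ hj
        rw [Pi.single_eq_of_ne hj, mul_zero]
      · intro h
        exact absurd (Finset.mem_univ i) h
    rw [e]
    exact hi
  rcases hj with h | h
  · refine ⟨Pi.single (i + 2) 1, Pi.single i 1, ?_, hg⟩
    fin_cases i <;> simpa [dt, dp, cr, Fin.sum_univ_three, Pi.single_apply] using h
  · refine ⟨Pi.single (i + 1) 1, Pi.single i 1, ?_, hg⟩
    fin_cases i <;> simpa [dt, dp, cr, Fin.sum_univ_three, Pi.single_apply] using h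

theorem pf_LAP (hBAP : T_BAP) (hBRG : T_BRG) (hRAM : T_RAM) (hAFE : T_AFE) (hCRE : T_CRE)
    (hCEN : T_CEN) : T_LAP := by
  intro k _ _ _ G d α A b hG hC hα s hs hGs hns hAs
  obtain ⟨u1, u2, hdt, hgr⟩ := frame hG.hom hs hGs hns
  obtain ⟨φ, a, hB, -, ha, hφ⟩ := hBAP k G d α A b hG hC hα s u1 u2 hdt hGs hgr
  obtain ⟨N, hN, -, hR⟩ := hRAM k _ _ φ a hB
  refine ⟨N * N, ?_⟩
  intro K _ _ _ htr D hD x v hx1 hP hNL hG1 hA1 hE hcen
  obtain ⟨z, hz, hzs⟩ := hcen
  obtain ⟨a0, a1, a2, h0, h1, h2, hn1, hn2, hx⟩ := dual s u1 u2 hdt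
  obtain ⟨l0, hl0⟩ : ∃ l, l = ∑ j, algebraMap k K (a0 j) * x j := ⟨_, rfl⟩
  obtain ⟨l1, hl1⟩ : ∃ l, l = ∑ j, algebraMap k K (a1 j) * x j := ⟨_, rfl⟩
  obtain ⟨l2, hl2⟩ : ∃ l, l = ∑ j, algebraMap k K (a2 j) * x j := ⟨_, rfl⟩
  have g0 := lin_ge hzs a0
  have g1 := lin_ge hzs a1
  have g2 := lin_ge hzs a2
  have hx' := hx K x
  rw [← hl0, h0, map_one] at g0
  rw [← hl1, h1, map_zero, sub_zero] at g1
  rw [← hl2, h2, map_zero, sub_zero] at g2
  rw [← hl0, ← hl1, ← hl2] at hx'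
  have hl1ne : l1 ≠ 0 := by rw [hl1]; exact hNL a1 hn1
  have hl2ne : l2 ≠ 0 := by rw [hl2]; exact hNL a2 hn2
  have hzl : v.ord (z * l0) = 0 ∧ z * l0 ≠ 0 := by
    have e : (1 : K) + (z * l0 - 1) = z * l0 := by ring
    have h3 := v.ord_add_eq_left (x := (1 : K)) (y := z * l0 - 1) one_ne_zero (fun h => by
      rw [v.ord_one]
      have := g0.resolve_left h
      omega)
    rw [e, v.ord_one] at h3
    exact ⟨h3.2, h3.1⟩
  have hl0ne : l0 ≠ 0 := fun h => hzl.2 (by rw [h, mul_zero])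
  have hord : ∀ l, l ≠ 0 → ge v 1 (z * l) → 1 ≤ v.ord (l / l0) := by
    intro l hl hg
    have h3 := hg.resolve_left (mul_ne_zero hz hl)
    have h4 := hzl.1
    rw [v.ord_mul _ _ hz hl] at h3
    rw [v.ord_mul _ _ hz hl0ne] at h4
    rw [v.ord_div hl hl0ne]
    omega
  have hX := hord l1 hl1ne g1
  have hY := hord l2 hl2ne g2
  have hxl : ∀ i, x i = l0 * pa s u1 u2 (l1 / l0) (l2 / l0) i := by
    intro i
    unfold pa
    rw [hx' i]
    field_simp
  obtain ⟨U, μ, hμ, hμG, hlt, -, hfin⟩ := core hBRG hAFE hCRE hCEN Pool.Agent.H34.OD2.pf_LTN k G d α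
    A b hG.hom hC s u1 u2 hdt hs φ a hB hφ N hN hR K htr D hD x v hx1 hP hG1 hA1 hE z hz hzs l0
    (l1 / l0) (l2 / l0) hl0ne hxl hzl.1 (by omega) (Or.inr hY)
  by_cases hc : nord v x d G ≤ nord v x α A
  · exact Or.inl hc
  · right
    push Not at hc
    have h3 := hlt hc
    have h4 : (1 : ℚ) ≤ a := by exact_mod_cast ha hAs
    have h5 := hfin ⟨geO_mono hμ.2 (by linarith), μ, h3, hμ.2⟩
    exact_mod_cast h5

end Pool.Agent.H48.ND
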