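import Pool.Agent.H84.ND.Targets2
import Pool.Agent.H32.SM.MAIN

/-!
# MP_70ba79_ag: irreducible nodal curves, normalised coordinates (board `ndc_modules`, row MAN)
-/

set_option autoImplicit false

namespace Pool.Agent.H48.ND

open MvPolynomial SC Pool.Agent.H27.LV Pool.Agent.H84.SM Pool.Agent.H84.ND
open Pool.Agent.H32.SM (Con finmax const_line)

theorem pf_MAN (hS1N : T_S1N) (hFOG : T_FOG) (hSMN : T_SMN) (hFO : Pool.Agent.H3.OD.T_FO)
    (hPRM : T_PRM) (hDSC : T_DSC) (hIMF : T_IMF) (hCAN : T_CAN) : T_MAN := by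
  intro k _ _ _ G d hd hG
  obtain ⟨B0, cs, ps, hcs, hps, hc, hp, h⟩ := hS1N k G d hd hG
  obtain ⟨C1, hC1⟩ := finmax cs hcs (fun c C => ∀ (K : Type) [Field K] [Algebra k K]
    [Algebra.EssFiniteType k K], Algebra.trdeg k K = 1 → ∀ (D : Derivation k K K), D ≠ 0 →
    ∀ (x : Fin 3 → K) (S : Finset (DV k K)), Prim k x → Crv G d x S →
    aeval (Sum.elim x fun i => D (x i)) c = 0 → Con k C x S.card)
    (fun a C C' hCC hP K _ _ _ ht D hD x S hpr hx he => (hP K ht D hD x S hpr hx he).mono hCC)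
    (fun c hcc => by
      obtain ⟨h1, h2, h3⟩ := hc c hcc
      obtain ⟨C, hC⟩ := hFOG hFO k G d (by omega) hG.ird.hom c h1 h2 h3
      exact ⟨C, fun K _ _ _ ht D hD x S hpr hx he => hC K ht D hD x S hpr hx he⟩)
  obtain ⟨C2, hC2⟩ := finmax ps hps (fun p C => ∀ (K : Type) [Field K] [Algebra k K]
    [Algebra.EssFiniteType k K], Algebra.trdeg k K = 1 → ∀ (D : Derivation k K K), D ≠ 0 →
    ∀ (x : Fin 3 → K) (S : Finset (DV k K)), Prim k x → Crv G d x S →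
    CEq D p.2.1 p.2.2 x → Con k C x S.card)
    (fun a C C' hCC hP K _ _ _ ht D hD x S hpr hx he => (hP K ht D hD x S hpr hx he).mono hCC)
    (fun p hpp => by
      obtain ⟨h1, h2⟩ := hp p hpp
      obtain ⟨C, hC⟩ := hSMN k G d p.1 p.2.1 p.2.2 hG h2 (by omega)
      exact ⟨C, fun K _ _ _ ht D hD x S hpr hx he => hC K ht D hD x S hpr hx he⟩)
  refine ⟨2 * B0 + 7 * (C1 + C2) + 2, ?_⟩
  intro K _ _ _ ht D hD x S hx
  have hcan := hCAN k K ht D hD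
  have hred : (∃ (e : ℕ) (Φ : MvPolynomial (Fin 3) k), e ≤ 2 * ((C1 + C2) * S.card) +
      (C1 + C2) + 1 ∧ Φ ≠ 0 ∧ Φ.IsHomogeneous e ∧ aeval x Φ = 0) →
      ∃ (e : ℕ) (Φ : MvPolynomial (Fin 3) k), (e : ℤ) ≤ ((2 * B0 + 7 * (C1 + C2) + 2 : ℕ) : ℤ) *
        max 1 (canDeg D + S.card) ∧ Φ ≠ 0 ∧ Φ.IsHomogeneous e ∧ aeval x Φ = 0 := by
    rintro ⟨e, Φ, he, hΦ⟩
    refine ⟨e, Φ, ?_, hΦ⟩
    have h1 : (e : ℤ) ≤ 2 * (((C1 + C2 : ℕ) : ℤ) * (S.card : ℤ)) + ((C1 + C2 : ℕ) : ℤ) + 1 := by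
      exact_mod_cast he
    have hm1 : (1 : ℤ) ≤ max 1 (canDeg D + S.card) := le_max_left _ _
    have hm2 : canDeg D + (S.card : ℤ) ≤ max 1 (canDeg D + S.card) := le_max_right _ _
    generalize max 1 (canDeg D + (S.card : ℤ)) = M at hm1 hm2
    have h2 : (S.card : ℤ) ≤ 3 * M := by omega
    have h3 : (0 : ℤ) ≤ ((C1 + C2 : ℕ) : ℤ) := by positivity
    have h4 : ((C1 + C2 : ℕ) : ℤ) * (S.card : ℤ) ≤ ((C1 + C2 : ℕ) : ℤ) * (3 * M) :=
      mul_le_mul_of_nonneg_left h2 h3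
    have h5 : ((C1 + C2 : ℕ) : ℤ) * 1 ≤ ((C1 + C2 : ℕ) : ℤ) * M :=
      mul_le_mul_of_nonneg_left hm1 h3
    have h6 : (0 : ℤ) ≤ (B0 : ℤ) * M := by positivity
    push_cast at h1 h4 h5 ⊢
    nlinarith
  by_cases hcc : ∀ i, x i ∈ Set.range (algebraMap k K)
  · obtain ⟨Φ, h1, h2, h3⟩ := const_line x hx.one hcc
    exact hred ⟨1, Φ, by omega, h1, h2, h3⟩
  rcases h K ht D hD x S hx with h1 | h1
  · obtain ⟨e, Φ, he, hΦ⟩ := hIMF k K ht x hx.one
    refine ⟨e, Φ, ?_, hΦ⟩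
    have he' : (e : ℤ) ≤ 2 * (deg k x : ℤ) + 1 := by exact_mod_cast he
    have hm1 : (1 : ℤ) ≤ max 1 (canDeg D + S.card) := le_max_left _ _
    have hm2 : canDeg D + (S.card : ℤ) ≤ max 1 (canDeg D + S.card) := le_max_right _ _
    generalize max 1 (canDeg D + (S.card : ℤ)) = M at hm1 hm2
    have h4 : (B0 : ℤ) * (canDeg D + (S.card : ℤ)) ≤ (B0 : ℤ) * M :=
      mul_le_mul_of_nonneg_left hm2 (by positivity)
    have h5 : (0 : ℤ) ≤ ((C1 : ℤ) + C2) * M := by positivity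
    push_cast
    nlinarith
  · rcases hPRM k G d hG.ird.hom K ht D hD x S hx with hcc' | ⟨K0, i1, i2, i3, ι, x0, D0, μ, S0,
      ht0, hD0, hx0, hpr, hμ, hDμ, hcr, hcard⟩
    · exact absurd hcc' hcc
    · have hxx : x = fun j => ι (x0 j) := funext fun j => (hx0 j).symm
      have hdsc := hDSC k K0 K ι D D0 μ x0 hμ hDμ
      have hCon : Con k (C1 + C2) x0 S0.card := by
        rcases h1 with ⟨c, hcm, hce⟩ | ⟨p, hpm, hpe⟩
        · obtain ⟨_, _, e, i, hbh⟩ := hc c hcm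
          refine (hC1 c hcm K0 ht0 D0 hD0 x0 S0 hpr hcr ?_).mono (Nat.le_add_right _ _)
          refine hdsc.1 c e i hbh ?_
          rw [hxx] at hce
          exact hce
        · obtain ⟨_, hcon⟩ := hp p hpm
          refine (hC2 p hpm K0 ht0 D0 hD0 x0 S0 hpr hcr ?_).mono (Nat.le_add_left _ _)
          refine hdsc.2 p.1 p.2.1 p.2.2 hcon.hA hcon.hb hcon.inv ?_
          rw [hxx] at hpe
          exact hpe
      apply hred
      have hav : ∀ Φ : MvPolynomial (Fin 3) k, aeval x0 Φ = 0 → aeval x Φ = 0 := by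
        intro Φ h0
        have h2 : aeval x Φ = ι (aeval x0 Φ) := by
          rw [hxx, ← MvPolynomial.comp_aeval_apply]
        rw [h2, h0, map_zero]
      rcases hCon with ⟨e, Φ, he, h1, h2, h3⟩ | hdeg
      · exact ⟨e, Φ, by omega, h1, h2, hav Φ h3⟩
      · obtain ⟨e, Φ, he, h1, h2, h3⟩ := hIMF k K0 ht0 x0 hcr.one
        refine ⟨e, Φ, ?_, h1, h2, hav Φ h3⟩
        have h4 : (C1 + C2) * S0.card ≤ (C1 + C2) * S.card := Nat.mul_le_mul_left _ hcard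
        omega

end Pool.Agent.H48.ND
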