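import Pool.Agent.H92.ND.TargetsB
import Pool.Agent.H26.SM.CMP

/-!
# MP_70ba79_ag: naive sections and their numerators (board `ndc_modules`, row NVM)
-/

set_option autoImplicit false

namespace Pool.Agent.H48.ND

open MvPolynomial SC Pool.Agent.H27.LV Pool.Agent.H84.SM Pool.Agent.H84.ND Pool.Agent.H92.ND

theorem pf_NVM : Pool.Agent.H92.ND.T_NVM := by
  intro k _ _ G d hd hG hG0 a i b hb
  have hg : gF G ≠ 0 := by
    intro h
    unfold gF at h
    have h1 : gA G = 0 := (map_eq_zero_iff _ (IsFractionRing.injective (A2 k) (F2 k))).1 h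
    have h2 := congrArg (aeval (Sum.elim (X : Fin 3 → MvPolynomial (Fin 3) k) 0) :
      A2 k → MvPolynomial (Fin 3) k) h1
    have e3 : aeval (Sum.elim (X : Fin 3 → MvPolynomial (Fin 3) k) 0) (gA G) = G := by
      unfold gA
      rw [MvPolynomial.comp_aeval_apply]
      have e4 : (fun i => aeval (Sum.elim (X : Fin 3 → MvPolynomial (Fin 3) k) 0)
          (xa (k := k) i)) = X := funext fun i => by simp [xa]
      rw [e4, aeval_X_left_apply]
    rw [e3, map_zero] at h2
    exact hG0 h2
  have hd0 : (d : F2 k) ≠ 0 := by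
    have : CharZero (F2 k) := charZero_of_injective_algebraMap
      (algebraMap k (F2 k)).injective
    exact_mod_cast (by omega : d ≠ 0)
  have hdg : (d : F2 k) * gF G ≠ 0 := mul_ne_zero hd0 hg
  unfold bm
  rw [← Pool.Agent.H26.SM.aeval_scale b i hb.2]
  unfold nv
  have h1 : algebraMap (A2 k) (F2 k) (aeval (Sum.elim xa
      fun j => (d : A2 k) * gA G * ya j - fA G * xa j) b) =
      aeval (fun s => algebraMap (A2 k) (F2 k) ((Sum.elim xa
        fun j => (d : A2 k) * gA G * ya j - fA G * xa j) s)) b := by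
    have h2 := MvPolynomial.comp_aeval_apply (f := Sum.elim xa
      fun j => (d : A2 k) * gA G * ya j - fA G * xa j) (IsScalarTower.toAlgHom k (A2 k) (F2 k)) b
    exact h2
  rw [h1]
  refine congrArg (fun f : Fin 3 ⊕ Fin 3 → F2 k => aeval f b) (funext fun s => ?_)
  rcases s with j | j
  · rfl
  · show algebraMap (A2 k) (F2 k) ((d : A2 k) * gA G * ya j - fA G * xa j) =
      (d : F2 k) * gF G * pr G d j
    unfold pr gF
    unfold gF at hdg
    rw [map_sub, map_mul, map_mul, map_natCast, mul_sub, mul_div_cancel₀ _ hdg]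

end Pool.Agent.H48.ND
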