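import Pool.Agent.H92.ND.TargetsB

/-!
# MP_70ba79_ag: products of sections (board `ndc_modules`, row SMU)
-/

set_option autoImplicit false

namespace Pool.Agent.H48.ND

open MvPolynomial SC Pool.Agent.H27.LV Pool.Agent.H84.SM Pool.Agent.H84.ND Pool.Agent.H92.ND

theorem bhn_C {k : Type} [Field k] {e i : ℕ} {c : A2 k} (h : BHN e i (Polynomial.C c)) :
    BH e i c := by
  have h1 := (h 0).1 (by omega)
  rwa [Polynomial.coeff_C_zero, mul_zero, Nat.sub_zero] at h1

theorem C_bhn {k : Type} [Field k] {e i : ℕ} {c : A2 k} (h : BH e i c) :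
    BHN e i (Polynomial.C c) := by
  intro j
  rcases Nat.eq_zero_or_pos j with hj | hj
  · subst hj
    refine ⟨fun _ => ?_, fun h0 => absurd h0 (by omega)⟩
    rwa [Polynomial.coeff_C_zero, mul_zero, Nat.sub_zero]
  · have h0 : (Polynomial.C c : R2 k).coeff j = 0 :=
      Polynomial.coeff_C_of_ne_zero (by omega)
    rw [h0]
    exact ⟨fun _ => ⟨isWeightedHomogeneous_zero k _ _, isWeightedHomogeneous_zero k _ _⟩,
      fun _ => rfl⟩

theorem inv_C {k : Type} [Field k] {c : A2 k} (h : Inv (Polynomial.C c : R2 k)) : dv c = 0 := by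
  have h1 := h 0
  rwa [Polynomial.coeff_C_zero] at h1

theorem C_inv {k : Type} [Field k] {c : A2 k} (h : dv c = 0) : Inv (Polynomial.C c : R2 k) := by
  intro j
  rcases Nat.eq_zero_or_pos j with hj | hj
  · subst hj
    rwa [Polynomial.coeff_C_zero]
  · have h0 : (Polynomial.C c : R2 k).coeff j = 0 :=
      Polynomial.coeff_C_of_ne_zero (by omega)
    rw [h0, map_zero]

theorem pf_SMU : Pool.Agent.H92.ND.T_SMU := by
  intro k _ G d i i' M M' t t' c c' h h'
  obtain ⟨h1, ⟨e, he, h2⟩, h3⟩ := h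
  obtain ⟨h1', ⟨e', he', h2'⟩, h3'⟩ := h'
  refine ⟨C_inv ?_, ⟨e + e', ?_, C_bhn ⟨?_, ?_⟩⟩, fun l => ?_⟩
  · rw [Derivation.leibniz, inv_C h1, inv_C h1', smul_zero, smul_zero, add_zero]
  · push_cast
    rw [he, he']
    ring
  · exact (bhn_C h2).1.mul (bhn_C h2').1
  · exact (bhn_C h2).2.mul (bhn_C h2').2
  · rw [Polynomial.C_mul, map_mul, pow_add]
    exact mul_dvd_mul (h3 l) (h3' l)

end Pool.Agent.H48.ND
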